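import Pool.Agent.H104_RCF.Transfer

/-!
# A polynomial over a real closed field attains its minimum on the unit sphere
-/

namespace Pool.Agent.H104_RCF

open MvPolynomial

/-- the statement over one field, for polynomials with prescribed exponents -/
def MinSt (M : ℕ) (S : Finset (Fin M →₀ ℕ)) (R : RCF) : Prop :=
  ∀ c : S → R, ∃ s : Fin M → R, ∑ i, s i ^ 2 = 1 ∧ ∀ v : Fin M → R, ∑ i, v i ^ 2 = 1 →
    ∑ a : S, c a * ∏ i, s i ^ (a.1 i) ≤ ∑ a : S, c a * ∏ i, v i ^ (a.1 i)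

theorem minSt_sap (M : ℕ) (S : Finset (Fin M →₀ ℕ)) :
    SAP (fun (R : RCF) (_ : Empty → R) => MinSt M S R) := by
  have h1 : SAP (fun (R : RCF) (u : ((Empty ⊕ S) ⊕ Fin M) ⊕ Fin M → R) =>
      ∑ i, u (Sum.inr i) ^ 2 = 1 →
      ∑ a : S, u (Sum.inl (Sum.inl (Sum.inr a))) * ∏ i, u (Sum.inl (Sum.inr i)) ^ (a.1 i) ≤
      ∑ a : S, u (Sum.inl (Sum.inl (Sum.inr a))) * ∏ i, u (Sum.inr i) ^ (a.1 i)) := by
    refine (SAP.eq (PF.sum _ fun i _ => (PF.coord _).pow 2) PF.one).imp (SAP.le ?_ ?_)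
    · exact PF.sum _ fun a _ => (PF.coord _).mul (PF.prod _ fun i _ => (PF.coord _).pow _)
    · exact PF.sum _ fun a _ => (PF.coord _).mul (PF.prod _ fun i _ => (PF.coord _).pow _)
  have h2 := SAP.forall_tuple (Fin M) h1
  have h3 : SAP (fun (R : RCF) (u : (Empty ⊕ S) ⊕ Fin M → R) =>
      ∑ i, u (Sum.inr i) ^ 2 = 1) :=
    SAP.eq (PF.sum _ fun i _ => (PF.coord _).pow 2) PF.one
  have h4 := SAP.exists_tuple (Fin M) (h3.and h2)
  have h5 := SAP.forall_tuple S h4
  exact h5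

theorem minSt_real (M : ℕ) (hM : 0 < M) (S : Finset (Fin M →₀ ℕ)) : MinSt M S realField := by
  intro c
  have hcpt : IsCompact {s : Fin M → ℝ | ∑ i, s i ^ 2 = 1} := by
    refine Metric.isCompact_of_isClosed_isBounded ?_ ?_
    · exact isClosed_eq (by fun_prop) continuous_const
    · refine (Metric.isBounded_closedBall (x := (0 : Fin M → ℝ)) (r := 1)).subset ?_
      intro s hs
      rw [mem_closedBall_zero_iff, pi_norm_le_iff_of_nonneg zero_le_one]
      intro i
      have h1 : s i ^ 2 ≤ 1 := by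
        have hs' : ∑ i, s i ^ 2 = 1 := hs
        rw [← hs']
        exact Finset.single_le_sum (f := fun i => s i ^ 2) (fun j _ => sq_nonneg _)
          (Finset.mem_univ i)
      rw [Real.norm_eq_abs]
      exact abs_le.2 (abs_le_of_sq_le_sq' (by rw [one_pow]; exact h1) zero_le_one)
  have hne : {s : Fin M → ℝ | ∑ i, s i ^ 2 = 1}.Nonempty := by
    refine ⟨Pi.single ⟨0, hM⟩ 1, ?_⟩
    simp only [Set.mem_ofPred_eq]
    rw [Finset.sum_eq_single ⟨0, hM⟩]
    · simp
    · intro b _ hb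
      simp [Pi.single_eq_of_ne hb]
    · simp
  obtain ⟨s, hs, hmin⟩ := hcpt.exists_isMinOn hne
    (f := fun s : Fin M → ℝ => ∑ a : S, (show ℝ from c a) * ∏ i, s i ^ (a.1 i))
    (by fun_prop)
  exact ⟨s, hs, fun v hv => hmin hv⟩

/-- **A polynomial over a real closed field attains its minimum on the unit sphere.** -/
theorem exists_min_sphere (R : Type) [Field R] [LinearOrder R] [IsStrictOrderedRing R]
    [IsRealClosed R] (M : ℕ) (hM : 0 < M) (p : MvPolynomial (Fin M) R) :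
    ∃ s : Fin M → R, ∑ i, s i ^ 2 = 1 ∧
      ∀ v : Fin M → R, ∑ i, v i ^ 2 = 1 → eval s p ≤ eval v p := by
  have h := transfer_real (minSt_sap M p.support) (minSt_real M hM p.support) ⟨R⟩
    (fun a => p.coeff a.1)
  obtain ⟨s, hs, hmin⟩ := h
  refine ⟨s, hs, fun v hv => ?_⟩
  have h1 := hmin v hv
  rw [eval_eq', eval_eq']
  rw [← Finset.sum_coe_sort p.support, ← Finset.sum_coe_sort p.support]
  exact h1

end Pool.Agent.H104_RCF
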