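import Pool.Agent.R316.DSf

/-!
# Elementary facts on polynomials over a real closed field, used in quantifier elimination
(generalises `Pool.Agent.H581R2.RealPoly` from the real numbers to real closed fields)
-/

namespace Pool.Agent.H104_RCF

open Polynomial Set

variable {K : Type*} [Field K] [LinearOrder K] [IsStrictOrderedRing K]

lemma sign_add_of_abs_lt {a b : K} (h : |a| < |b|) : SignType.sign (a + b) = SignType.sign b := by
  rcases lt_trichotomy b 0 with hb | hb | hb
  · rw [abs_of_neg hb, abs_lt] at h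
    rw [sign_neg hb, sign_neg (by linarith [h.2])]
  · subst hb
    simp at h
    exact absurd h (not_lt.2 (abs_nonneg _))
  · rw [abs_of_pos hb, abs_lt] at h
    rw [sign_pos hb, sign_pos (by linarith [h.1])]

/-- the sign of a polynomial is eventually the sign of its leading coefficient -/
lemma sign_large (P : K[X]) (hP : P ≠ 0) :
    ∃ B : K, ∀ x, B < x → SignType.sign (P.eval x) = SignType.sign P.leadingCoeff := by
  have hc : P.leadingCoeff ≠ 0 := by simpa using hP
  set S : K := ∑ i ∈ Finset.range P.natDegree, |P.coeff i| with hS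
  have hS0 : 0 ≤ S := Finset.sum_nonneg fun i _ => abs_nonneg _
  refine ⟨max 1 (S / |P.leadingCoeff|), fun x hx => ?_⟩
  have hx1 : 1 < x := (le_max_left _ _).trans_lt hx
  have hx2 : S / |P.leadingCoeff| < x := (le_max_right _ _).trans_lt hx
  have hx0 : 0 < x := zero_lt_one.trans hx1
  rw [div_lt_iff₀ (abs_pos.2 hc)] at hx2
  rw [eval_eq_sum_range, Finset.sum_range_succ]
  have hle : |∑ i ∈ Finset.range P.natDegree, P.coeff i * x ^ i| ≤ S * x ^ (P.natDegree - 1) := by
    rw [hS, Finset.sum_mul]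
    refine (Finset.abs_sum_le_sum_abs _ _).trans (Finset.sum_le_sum fun i hi => ?_)
    rw [abs_mul, abs_pow, abs_of_pos hx0]
    refine mul_le_mul_of_nonneg_left ?_ (abs_nonneg _)
    exact pow_le_pow_right₀ hx1.le (by have := Finset.mem_range.1 hi; omega)
  have hmain : |∑ i ∈ Finset.range P.natDegree, P.coeff i * x ^ i| <
      |P.coeff P.natDegree * x ^ P.natDegree| := by
    rw [abs_mul, abs_pow, abs_of_pos hx0]
    rcases Nat.eq_zero_or_pos P.natDegree with h0 | h0
    · rw [h0]
      simp only [Finset.range_zero, Finset.sum_empty, abs_zero, pow_zero, mul_one]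
      rw [← h0]
      exact abs_pos.2 hc
    · refine hle.trans_lt ?_
      obtain ⟨m, hm⟩ := Nat.exists_eq_succ_of_ne_zero h0.ne'
      have e : x ^ P.natDegree = x * x ^ (P.natDegree - 1) := by
        rw [hm, Nat.succ_eq_add_one, Nat.add_sub_cancel, pow_succ']
      rw [e, ← mul_assoc]
      refine mul_lt_mul_of_pos_right ?_ (pow_pos hx0 _)
      rw [mul_comm]
      exact hx2
  rw [sign_add_of_abs_lt hmain, sign_mul, sign_pos (pow_pos hx0 _), mul_one]
  rfl

/-- the sign of a polynomial at `-∞` -/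
lemma sign_small (P : K[X]) (hP : P ≠ 0) :
    ∃ B : K, ∀ x, x < B → SignType.sign (P.eval x) =
      SignType.sign ((-1) ^ P.natDegree * P.leadingCoeff) := by
  have h1 : P.comp (-X) ≠ 0 := by
    intro h
    apply hP
    have := congrArg (fun q => q.comp (-X)) h
    simpa [Polynomial.comp_assoc] using this
  obtain ⟨B, hB⟩ := sign_large (P.comp (-X)) h1
  have h3 : (P.comp (-X)).leadingCoeff = (-1) ^ P.natDegree * P.leadingCoeff := by
    rw [Polynomial.leadingCoeff_comp (by simp)]
    simp [mul_comm]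
  rw [h3] at hB
  refine ⟨-B, fun x hx => ?_⟩
  have := hB (-x) (by linarith)
  simpa using this

variable (hK : R316.DS.IVP K)

include hK

/-- no roots on an order connected set: constant sign -/
lemma sign_const (P : K[X]) {I : Set K} (hI : I.OrdConnected) (h : ∀ t ∈ I, P.eval t ≠ 0)
    {x y : K} (hx : x ∈ I) (hy : y ∈ I) :
    SignType.sign (P.eval x) = SignType.sign (P.eval y) := by
  by_contra hne
  have key : ∀ x y : K, x ∈ I → y ∈ I → x < y →
      SignType.sign (P.eval x) ≠ SignType.sign (P.eval y) → False := by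
    intro x y hx hy hxy hne
    have hx0 := h x hx
    have hy0 := h y hy
    have : P.eval x * P.eval y < 0 := by
      rcases lt_or_gt_of_ne hx0 with h1 | h1 <;> rcases lt_or_gt_of_ne hy0 with h2 | h2
      · exact absurd (by rw [sign_neg h1, sign_neg h2]) hne
      · exact mul_neg_of_neg_of_pos h1 h2
      · exact mul_neg_of_pos_of_neg h1 h2
      · exact absurd (by rw [sign_pos h1, sign_pos h2]) hne
    obtain ⟨t, h1, h2, h3⟩ := hK P x y hxy this
    exact h t (hI.out hx hy ⟨h1.le, h2.le⟩) h3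
  rcases lt_trichotomy x y with hxy | hxy | hxy
  · exact key x y hx hy hxy hne
  · exact hne (by rw [hxy])
  · exact key y x hy hx hxy (fun h => hne h.symm)

/-- a factorisation with all the zeros of a closed interval split off at the ends: Rolle's theorem
for two zeros without zeros in between -/
lemma rolle_aux (P : K[X]) (hP : P ≠ 0) {a b : K} (hab : a < b) (ha : P.eval a = 0)
    (hb : P.eval b = 0) (hno : ∀ t, a < t → t < b → P.eval t ≠ 0) :
    ∃ t, a < t ∧ t < b ∧ P.derivative.eval t = 0 := by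
  obtain ⟨Q, hQ⟩ := pow_rootMultiplicity_dvd P a
  set m := P.rootMultiplicity a with hm
  have hm0 : 0 < m := (rootMultiplicity_pos hP).2 ha
  have hQ0 : Q ≠ 0 := by
    rintro rfl
    exact hP (by rw [hQ, mul_zero])
  have hQa : Q.eval a ≠ 0 := by
    intro h
    have h1 : (X - C a) ^ (m + 1) ∣ P := by
      obtain ⟨Q', hQ'⟩ := dvd_iff_isRoot.2 (show IsRoot Q a from h)
      exact ⟨Q', by rw [hQ, hQ', pow_succ]; ring⟩
    have h2 := (le_rootMultiplicity_iff hP).2 h1
    omega
  have hQb : Q.eval b = 0 := by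
    have h1 := hb
    rw [hQ, eval_mul, eval_pow, eval_sub, eval_X, eval_C] at h1
    exact (mul_eq_zero.1 h1).resolve_left (pow_ne_zero _ (sub_ne_zero.2 hab.ne'))
  obtain ⟨W, hW⟩ := pow_rootMultiplicity_dvd Q b
  set n := Q.rootMultiplicity b with hn
  have hn0 : 0 < n := (rootMultiplicity_pos hQ0).2 hQb
  have hWb : W.eval b ≠ 0 := by
    intro h
    have h1 : (X - C b) ^ (n + 1) ∣ Q := by
      obtain ⟨Q', hQ'⟩ := dvd_iff_isRoot.2 (show IsRoot W b from h)
      exact ⟨Q', by rw [hW, hQ', pow_succ]; ring⟩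
    have h2 := (le_rootMultiplicity_iff hQ0).2 h1
    omega
  have hWa : W.eval a ≠ 0 := by
    intro h
    apply hQa
    rw [hW, eval_mul, h, mul_zero]
  have hWt : ∀ t ∈ Icc a b, W.eval t ≠ 0 := by
    intro t ht h
    rcases eq_or_lt_of_le ht.1 with h1 | h1
    · exact hWa (h1 ▸ h)
    · rcases eq_or_lt_of_le ht.2 with h2 | h2
      · exact hWb (h2 ▸ h)
      · exact hno t h1 h2 (by rw [hQ, hW, eval_mul, eval_mul, h, mul_zero, mul_zero])
  have hs := sign_const hK W ordConnected_Icc hWt (left_mem_Icc.2 hab.le) (right_mem_Icc.2 hab.le)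
  obtain ⟨m', hm'⟩ : ∃ m', m = m' + 1 := ⟨m - 1, by omega⟩
  obtain ⟨n', hn'⟩ : ∃ n', n = n' + 1 := ⟨n - 1, by omega⟩
  have hPW : P = (X - C a) ^ (m' + 1) * ((X - C b) ^ (n' + 1) * W) := by
    rw [← hm', ← hn', ← hW, ← hQ]
  set Q1 : K[X] := C ((m' + 1 : ℕ) : K) * (X - C b) * W + C ((n' + 1 : ℕ) : K) * (X - C a) * W +
    (X - C a) * (X - C b) * derivative W with hQ1
  have hder : derivative P = (X - C a) ^ m' * (X - C b) ^ n' * Q1 := by
    rw [hPW, hQ1]
    simp only [derivative_mul, derivative_pow, derivative_sub, derivative_X, derivative_C,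
      sub_zero, mul_one, Nat.add_sub_cancel]
    simp only [map_natCast]
    push_cast
    ring
  have hm1 : (0 : K) < ((m' + 1 : ℕ) : K) := by positivity
  have hn1 : (0 : K) < ((n' + 1 : ℕ) : K) := by positivity
  have hWW : 0 < W.eval a * W.eval b := by
    rcases lt_or_gt_of_ne hWa with h1 | h1 <;> rcases lt_or_gt_of_ne hWb with h2 | h2
    · exact mul_pos_of_neg_of_neg h1 h2
    · rw [sign_neg h1, sign_pos h2] at hs; exact absurd hs (by decide)
    · rw [sign_pos h1, sign_neg h2] at hs; exact absurd hs (by decide)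
    · exact mul_pos h1 h2
  obtain ⟨t, h1, h2, h3⟩ := hK Q1 a b hab (by
    have e1 : Q1.eval a = -(((m' + 1 : ℕ) : K) * (b - a) * W.eval a) := by
      rw [hQ1]
      simp only [eval_add, eval_mul, eval_sub, eval_X, eval_C]
      ring
    have e2 : Q1.eval b = ((n' + 1 : ℕ) : K) * (b - a) * W.eval b := by
      rw [hQ1]
      simp only [eval_add, eval_mul, eval_sub, eval_X, eval_C]
      ring
    rw [e1, e2]
    have e3 : -(((m' + 1 : ℕ) : K) * (b - a) * W.eval a) * (((n' + 1 : ℕ) : K) * (b - a) * W.eval b)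
        = -((((m' + 1 : ℕ) : K) * ((n' + 1 : ℕ) : K)) * (b - a) ^ 2 * (W.eval a * W.eval b)) := by
      ring
    rw [e3]
    have : 0 < (b - a) ^ 2 := pow_pos (sub_pos.2 hab) 2
    have := mul_pos (mul_pos (mul_pos hm1 hn1) this) hWW
    linarith)
  refine ⟨t, h1, h2, ?_⟩
  rw [hder, eval_mul, h3, mul_zero]

/-- Rolle's theorem for two zeros -/
lemma rolle (P : K[X]) (hP : P ≠ 0) {a b : K} (hab : a < b) (ha : P.eval a = 0)
    (hb : P.eval b = 0) : ∃ t, a < t ∧ t < b ∧ P.derivative.eval t = 0 := by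
  classical
  -- the smallest zero greater than `a`
  set Z : Finset K := P.roots.toFinset.filter (fun z => a < z) with hZ
  have hbZ : b ∈ Z := by simp [hZ, hP, hb, hab]
  obtain ⟨c, hc, hmin⟩ := Finset.exists_min_image Z id ⟨b, hbZ⟩
  simp only [id] at hmin
  have hc' : P.eval c = 0 ∧ a < c := by
    simpa [hZ, hP] using hc
  obtain ⟨t, h1, h2, h3⟩ := rolle_aux hK P hP hc'.2 ha hc'.1 (fun t h1 h2 h3 => by
    have : t ∈ Z := by simp [hZ, hP, h3, h1]
    exact absurd (hmin t this) (not_le.2 h2))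
  exact ⟨t, h1, h2.trans_le (hmin b hbZ), h3⟩

/-- a simple zero in an interval without zeros of the derivative: opposite signs at the ends -/
lemma strict_signs (P : K[X]) {a t b : K} (hat : a < t) (htb : t < b)
    (hd : ∀ s, a < s → s < b → P.derivative.eval s ≠ 0) (h0 : P.eval t = 0) :
    P.eval a * P.eval b < 0 := by
  have hP : P ≠ 0 := by
    rintro rfl
    exact hd t hat htb (by simp)
  obtain ⟨G, hG⟩ := dvd_iff_isRoot.2 (show IsRoot P t from h0)
  have hGt : G.eval t ≠ 0 := by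
    intro h
    apply hd t hat htb
    rw [hG, derivative_mul]
    simp [h]
  have hno : ∀ s ∈ Icc a b, G.eval s ≠ 0 := by
    intro s hs h
    have hPs : P.eval s = 0 := by rw [hG, eval_mul, h, mul_zero]
    rcases lt_trichotomy s t with h1 | h1 | h1
    · obtain ⟨u, hu1, hu2, hu3⟩ := rolle hK P hP h1 hPs h0
      exact hd u (hs.1.trans_lt hu1) (hu2.trans htb) hu3
    · exact hGt (h1 ▸ h)
    · obtain ⟨u, hu1, hu2, hu3⟩ := rolle hK P hP h1 h0 hPs
      exact hd u (hat.trans hu1) (hu2.trans_le hs.2) hu3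
  have hab := hat.trans htb
  have hs := sign_const hK G ordConnected_Icc hno (left_mem_Icc.2 hab.le) (right_mem_Icc.2 hab.le)
  have hGa := hno a (left_mem_Icc.2 hab.le)
  have hGb := hno b (right_mem_Icc.2 hab.le)
  have hGG : 0 < G.eval a * G.eval b := by
    rcases lt_or_gt_of_ne hGa with h1 | h1 <;> rcases lt_or_gt_of_ne hGb with h2 | h2
    · exact mul_pos_of_neg_of_neg h1 h2
    · rw [sign_neg h1, sign_pos h2] at hs; exact absurd hs (by decide)
    · rw [sign_pos h1, sign_neg h2] at hs; exact absurd hs (by decide)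
    · exact mul_pos h1 h2
  rw [hG]
  simp only [eval_mul, eval_sub, eval_X, eval_C]
  have e : (a - t) * G.eval a * ((b - t) * G.eval b) =
      -((t - a) * (b - t) * (G.eval a * G.eval b)) := by ring
  rw [e]
  have := mul_pos (mul_pos (sub_pos.2 hat) (sub_pos.2 htb)) hGG
  linarith

omit hK in
/-- the component of a point outside a finite set -/
lemma comp_left (Z : Finset K) (t : K) :
    (∃ a ∈ Z, a < t ∧ ∀ z ∈ Z, z < t → z ≤ a) ∨ (∀ z ∈ Z, ¬ z < t) := by
  classical
  by_cases h : ∃ z ∈ Z, z < t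
  · left
    obtain ⟨a, ha, hmax⟩ := Finset.exists_max_image (Z.filter (· < t)) id
      (by obtain ⟨z, hz, hzt⟩ := h; exact ⟨z, by simp [hz, hzt]⟩)
    simp only [Finset.mem_filter, id] at ha hmax
    exact ⟨a, ha.1, ha.2, fun z hz hzt => hmax z ⟨hz, hzt⟩⟩
  · right
    push Not at h
    exact fun z hz => not_lt.2 (h z hz)

omit hK in
lemma comp_right (Z : Finset K) (t : K) :
    (∃ a ∈ Z, t < a ∧ ∀ z ∈ Z, t < z → a ≤ z) ∨ (∀ z ∈ Z, ¬ t < z) := by
  classical
  by_cases h : ∃ z ∈ Z, t < z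
  · left
    obtain ⟨a, ha, hmin⟩ := Finset.exists_min_image (Z.filter (t < ·)) id
      (by obtain ⟨z, hz, hzt⟩ := h; exact ⟨z, by simp [hz, hzt]⟩)
    simp only [Finset.mem_filter, id] at ha hmin
    exact ⟨a, ha.1, ha.2, fun z hz hzt => hmin z ⟨hz, hzt⟩⟩
  · right
    push Not at h
    exact fun z hz => not_lt.2 (h z hz)

omit hK in
lemma sign_mul_neg {x y z : K} (h : SignType.sign y = SignType.sign z) (hxy : x * y < 0) :
    x * z < 0 := by
  have h1 : SignType.sign (x * y) = SignType.sign (x * z) := by rw [sign_mul, sign_mul, h]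
  rw [sign_neg hxy, eq_comm, sign_eq_neg_one_iff] at h1
  exact h1

omit hK in
lemma exists_sign_right (P : K[X]) (hP : P ≠ 0) (t : K) :
    ∃ s, t < s ∧ SignType.sign (P.eval s) = SignType.sign P.leadingCoeff := by
  obtain ⟨B, hB⟩ := sign_large P hP
  exact ⟨max B t + 1, (le_max_right B t).trans_lt (lt_add_one _),
    hB _ ((le_max_left B t).trans_lt (lt_add_one _))⟩

omit hK in
lemma exists_sign_left (P : K[X]) (hP : P ≠ 0) (t : K) :
    ∃ s, s < t ∧ SignType.sign (P.eval s) =
      SignType.sign ((-1) ^ P.natDegree * P.leadingCoeff) := by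
  obtain ⟨B, hB⟩ := sign_small P hP
  exact ⟨min B t - 1, (sub_one_lt _).trans_le (min_le_right B t),
    hB _ ((sub_one_lt _).trans_le (min_le_left B t))⟩

/-- classification of the position of a root which is not a root of the derivative -/
lemma root_cases (P : K[X]) (hP : P ≠ 0) (Z : Finset K)
    (hZ : ∀ t, t ∉ Z → P.derivative.eval t ≠ 0) {t : K} (ht : t ∉ Z) (h0 : P.eval t = 0) :
    (∃ a ∈ Z, ∃ b ∈ Z, a < t ∧ t < b ∧ (∀ z ∈ Z, ¬ (a < z ∧ z < b)) ∧ P.eval a * P.eval b < 0) ∨
    (∃ a ∈ Z, a < t ∧ (∀ z ∈ Z, ¬ a < z) ∧ P.eval a * P.leadingCoeff < 0) ∨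
    (∃ b ∈ Z, t < b ∧ (∀ z ∈ Z, ¬ z < b) ∧
      P.eval b * ((-1) ^ P.natDegree * P.leadingCoeff) < 0) ∨
    ((∀ z, z ∉ Z) ∧ ((-1) ^ P.natDegree * P.leadingCoeff) * P.leadingCoeff < 0) := by
  rcases comp_left Z t with ⟨a, ha, hat, hamax⟩ | hL <;>
  rcases comp_right Z t with ⟨b, hb, htb, hbmin⟩ | hR
  · left
    have hgap : ∀ z ∈ Z, ¬ (a < z ∧ z < b) := by
      rintro z hz ⟨h1, h2⟩
      rcases lt_trichotomy z t with h | h | h
      · exact absurd (hamax z hz h) (not_le.2 h1)
      · exact ht (h ▸ hz)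
      · exact absurd (hbmin z hz h) (not_le.2 h2)
    exact ⟨a, ha, b, hb, hat, htb, hgap, strict_signs hK P hat htb
      (fun s h1 h2 => hZ s fun hz => hgap s hz ⟨h1, h2⟩) h0⟩
  · right; left
    have hgap : ∀ z ∈ Z, ¬ a < z := by
      intro z hz h1
      rcases lt_trichotomy z t with h | h | h
      · exact absurd (hamax z hz h) (not_le.2 h1)
      · exact ht (h ▸ hz)
      · exact hR z hz h
    refine ⟨a, ha, hat, hgap, ?_⟩
    obtain ⟨s, h1, h2⟩ := exists_sign_right P hP t
    exact sign_mul_neg h2 (strict_signs hK P hat h1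
      (fun s h1 _ => hZ s fun hz => hgap s hz h1) h0)
  · right; right; left
    have hgap : ∀ z ∈ Z, ¬ z < b := by
      intro z hz h1
      rcases lt_trichotomy z t with h | h | h
      · exact hL z hz h
      · exact ht (h ▸ hz)
      · exact absurd (hbmin z hz h) (not_le.2 h1)
    refine ⟨b, hb, htb, hgap, ?_⟩
    obtain ⟨s, h1, h2⟩ := exists_sign_left P hP t
    refine sign_mul_neg h2 ?_
    rw [mul_comm]
    exact strict_signs hK P h1 htb (fun s _ h2 => hZ s fun hz => hgap s hz h2) h0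
  · right; right; right
    have hgap : ∀ z, z ∉ Z := by
      intro z hz
      rcases lt_trichotomy z t with h | h | h
      · exact hL z hz h
      · exact ht (h ▸ hz)
      · exact hR z hz h
    refine ⟨hgap, ?_⟩
    obtain ⟨s, h1, h2⟩ := exists_sign_right P hP t
    obtain ⟨s', h1', h2'⟩ := exists_sign_left P hP t
    have := strict_signs hK P h1' h1 (fun s _ _ => hZ s (hgap s)) h0
    have h3 := sign_mul_neg h2 this
    rw [mul_comm] at h3
    have h4 := sign_mul_neg h2' h3
    rwa [mul_comm] at h4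

lemma root_right (P : K[X]) (hP : P ≠ 0) {a : K} (h : P.eval a * P.leadingCoeff < 0) :
    ∃ t, a < t ∧ P.eval t = 0 := by
  obtain ⟨s, h1, h2⟩ := exists_sign_right P hP a
  obtain ⟨t, h3, _, h5⟩ := hK P a s h1 (sign_mul_neg h2.symm h)
  exact ⟨t, h3, h5⟩

lemma root_left (P : K[X]) (hP : P ≠ 0) {b : K}
    (h : P.eval b * ((-1) ^ P.natDegree * P.leadingCoeff) < 0) :
    ∃ t, t < b ∧ P.eval t = 0 := by
  obtain ⟨s, h1, h2⟩ := exists_sign_left P hP b
  obtain ⟨t, _, h4, h5⟩ := hK P s b h1 (by rw [mul_comm]; exact sign_mul_neg h2.symm h)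
  exact ⟨t, h4, h5⟩

lemma root_all (P : K[X]) (hP : P ≠ 0)
    (h : ((-1) ^ P.natDegree * P.leadingCoeff) * P.leadingCoeff < 0) :
    ∃ t, P.eval t = 0 := by
  obtain ⟨s, h1, h2⟩ := exists_sign_right P hP 0
  have h3 := sign_mul_neg h2.symm h
  rw [mul_comm] at h3
  obtain ⟨t, _, h5⟩ := root_left hK P hP h3
  exact ⟨t, h5⟩

end Pool.Agent.H104_RCF
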