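import Pool.Agent.H104_RCF.Poly

/-!
# Semialgebraic families over all real closed fields at once

(`Pool.Agent.H581R2.SA` made uniform in the real closed field.)
A family of predicates, one for each real closed field, is semialgebraic if its truth depends only
on the signs of finitely many polynomials with rational coefficients, uniformly in the field.
-/

namespace Pool.Agent.H104_RCF

open MvPolynomial

/-- a bundled real closed ordered field -/
structure RCF : Type 1 where
  /-- the underlying type -/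
  carrier : Type
  /-- the field structure -/
  [fld : Field carrier]
  /-- the order -/
  [lin : LinearOrder carrier]
  /-- compatibility -/
  [str : IsStrictOrderedRing carrier]
  /-- real closed -/
  [rcl : IsRealClosed carrier]

attribute [instance] RCF.fld RCF.lin RCF.str RCF.rcl

instance : CoeSort RCF (Type) := ⟨RCF.carrier⟩

variable {ι κ : Type}

/-- polynomial functions with rational coefficients -/
def PF (f : (R : RCF) → (ι → R) → R) : Prop :=
  ∃ q : MvPolynomial ι ℚ, ∀ (R : RCF) (v : ι → R), f R v = aeval v q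

lemma PF.aeval (q : MvPolynomial ι ℚ) : PF (fun _ v => aeval v q) := ⟨q, fun _ _ => rfl⟩

lemma PF.coord (i : ι) : PF (fun (R : RCF) (v : ι → R) => v i) := ⟨X i, fun _ v => by simp⟩

lemma PF.const (r : ℚ) : PF (fun (R : RCF) (_ : ι → R) => (r : R)) :=
  ⟨C r, fun _ v => by simp⟩

lemma PF.constNat (r : ℕ) : PF (fun (R : RCF) (_ : ι → R) => (r : R)) :=
  ⟨C (r : ℚ), fun _ v => by simp⟩

lemma PF.zero : PF (fun (R : RCF) (_ : ι → R) => (0 : R)) := ⟨0, fun _ v => by simp⟩

lemma PF.one : PF (fun (R : RCF) (_ : ι → R) => (1 : R)) := ⟨1, fun _ v => by simp⟩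

lemma PF.add {f g : (R : RCF) → (ι → R) → R} (hf : PF f) (hg : PF g) :
    PF (fun R v => f R v + g R v) := by
  obtain ⟨p, hp⟩ := hf
  obtain ⟨q, hq⟩ := hg
  exact ⟨p + q, fun R v => by simp [hp, hq]⟩

lemma PF.sub {f g : (R : RCF) → (ι → R) → R} (hf : PF f) (hg : PF g) :
    PF (fun R v => f R v - g R v) := by
  obtain ⟨p, hp⟩ := hf
  obtain ⟨q, hq⟩ := hg
  exact ⟨p - q, fun R v => by simp [hp, hq]⟩

lemma PF.neg {f : (R : RCF) → (ι → R) → R} (hf : PF f) : PF (fun R v => - f R v) := by
  obtain ⟨p, hp⟩ := hf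
  exact ⟨-p, fun R v => by simp [hp]⟩

lemma PF.mul {f g : (R : RCF) → (ι → R) → R} (hf : PF f) (hg : PF g) :
    PF (fun R v => f R v * g R v) := by
  obtain ⟨p, hp⟩ := hf
  obtain ⟨q, hq⟩ := hg
  exact ⟨p * q, fun R v => by simp [hp, hq]⟩

lemma PF.pow {f : (R : RCF) → (ι → R) → R} (hf : PF f) (n : ℕ) : PF (fun R v => f R v ^ n) := by
  obtain ⟨p, hp⟩ := hf
  exact ⟨p ^ n, fun R v => by simp [hp]⟩

lemma PF.sum {α : Type*} (s : Finset α) {f : α → (R : RCF) → (ι → R) → R}
    (hf : ∀ a ∈ s, PF (f a)) : PF (fun R v => ∑ a ∈ s, f a R v) := by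
  classical
  induction s using Finset.induction_on with
  | empty => simpa using PF.zero
  | insert a s ha ih =>
    have : (fun (R : RCF) (v : ι → R) => ∑ b ∈ insert a s, f b R v) =
        fun R v => f a R v + ∑ b ∈ s, f b R v := by
      funext R v; rw [Finset.sum_insert ha]
    rw [this]
    exact (hf a (by simp)).add (ih fun b hb => hf b (by simp [hb]))

lemma PF.prod {α : Type*} (s : Finset α) {f : α → (R : RCF) → (ι → R) → R}
    (hf : ∀ a ∈ s, PF (f a)) : PF (fun R v => ∏ a ∈ s, f a R v) := by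
  classical
  induction s using Finset.induction_on with
  | empty => simpa using PF.one
  | insert a s ha ih =>
    have : (fun (R : RCF) (v : ι → R) => ∏ b ∈ insert a s, f b R v) =
        fun R v => f a R v * ∏ b ∈ s, f b R v := by
      funext R v; rw [Finset.prod_insert ha]
    rw [this]
    exact (hf a (by simp)).mul (ih fun b hb => hf b (by simp [hb]))

/-- substitution of polynomial functions in a polynomial function -/
lemma PF.comp {f : (R : RCF) → (κ → R) → R} (hf : PF f) {φ : (R : RCF) → (ι → R) → κ → R}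
    (hφ : ∀ k, PF (fun R v => φ R v k)) : PF (fun R v => f R (φ R v)) := by
  obtain ⟨p, hp⟩ := hf
  choose r hr using hφ
  refine ⟨bind₁ r p, fun R v => ?_⟩
  show f R (φ R v) = _
  rw [hp, aeval_bind₁]
  congr 2
  funext k
  exact hr k R v

/-- A family of predicates is semialgebraic if its truth depends only on the signs of finitely many
polynomials with rational coefficients, uniformly over all real closed fields. -/
def SAP (p : (R : RCF) → (ι → R) → Prop) : Prop :=
  ∃ Q : Finset (MvPolynomial ι ℚ), ∀ (R R' : RCF) (v : ι → R) (w : ι → R'),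
    (∀ q ∈ Q, SignType.sign (MvPolynomial.aeval v q) = SignType.sign (MvPolynomial.aeval w q)) →
      p R v → p R' w

lemma SAP.iff' {p : (R : RCF) → (ι → R) → Prop} (h : SAP p) :
    ∃ Q : Finset (MvPolynomial ι ℚ), ∀ (R R' : RCF) (v : ι → R) (w : ι → R'),
    (∀ q ∈ Q, SignType.sign (MvPolynomial.aeval v q) = SignType.sign (MvPolynomial.aeval w q)) →
      (p R v ↔ p R' w) := by
  obtain ⟨Q, hQ⟩ := h
  exact ⟨Q, fun R R' v w h => ⟨hQ R R' v w h, hQ R' R w v fun q hq => (h q hq).symm⟩⟩

lemma SAP.congr {p q : (R : RCF) → (ι → R) → Prop} (hp : SAP p)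
    (h : ∀ (R : RCF) (v : ι → R), q R v ↔ p R v) : SAP q := by
  have : q = p := funext fun R => funext fun v => propext (h R v)
  rwa [this]

lemma SAP.not {p : (R : RCF) → (ι → R) → Prop} (h : SAP p) : SAP (fun R v => ¬ p R v) := by
  obtain ⟨Q, hQ⟩ := h.iff'
  exact ⟨Q, fun R R' v w h hv hw => hv ((hQ R R' v w h).2 hw)⟩

lemma SAP.and {p q : (R : RCF) → (ι → R) → Prop} (hp : SAP p) (hq : SAP q) :
    SAP (fun R v => p R v ∧ q R v) := by
  classical
  obtain ⟨Q, hQ⟩ := hp
  obtain ⟨Q', hQ'⟩ := hq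
  refine ⟨Q ∪ Q', fun R R' v w h hv => ⟨hQ R R' v w (fun q hq => h q ?_) hv.1,
    hQ' R R' v w (fun q hq => h q ?_) hv.2⟩⟩
  · simp [hq]
  · simp [hq]

lemma SAP.or {p q : (R : RCF) → (ι → R) → Prop} (hp : SAP p) (hq : SAP q) :
    SAP (fun R v => p R v ∨ q R v) :=
  ((hp.not.and hq.not).not).congr fun R v => by tauto

lemma SAP.imp {p q : (R : RCF) → (ι → R) → Prop} (hp : SAP p) (hq : SAP q) :
    SAP (fun R v => p R v → q R v) :=
  (hp.not.or hq).congr fun R v => by tauto

lemma SAP.iff {p q : (R : RCF) → (ι → R) → Prop} (hp : SAP p) (hq : SAP q) :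
    SAP (fun R v => p R v ↔ q R v) :=
  ((hp.imp hq).and (hq.imp hp)).congr fun R v => by tauto

lemma SAP.const (P : Prop) : SAP (fun (R : RCF) (_ : ι → R) => P) :=
  ⟨∅, fun _ _ _ _ _ h => h⟩

lemma SAP.exists_mem {α : Type*} (s : Finset α) {p : α → (R : RCF) → (ι → R) → Prop}
    (h : ∀ a ∈ s, SAP (p a)) : SAP (fun R v => ∃ a ∈ s, p a R v) := by
  classical
  induction s using Finset.induction_on with
  | empty => exact SAP.congr (SAP.const False) (by simp)
  | insert a s ha ih =>
    exact SAP.congr ((h a (by simp)).or (ih fun b hb => h b (by simp [hb]))) (by simp)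

lemma SAP.forall_mem {α : Type*} (s : Finset α) {p : α → (R : RCF) → (ι → R) → Prop}
    (h : ∀ a ∈ s, SAP (p a)) : SAP (fun R v => ∀ a ∈ s, p a R v) := by
  classical
  induction s using Finset.induction_on with
  | empty => exact SAP.congr (SAP.const True) (by simp)
  | insert a s ha ih =>
    exact SAP.congr ((h a (by simp)).and (ih fun b hb => h b (by simp [hb]))) (by simp)

lemma SAP.exists_fin {α : Type*} [Finite α] {p : α → (R : RCF) → (ι → R) → Prop}
    (h : ∀ a, SAP (p a)) : SAP (fun R v => ∃ a, p a R v) := by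
  classical
  have := Fintype.ofFinite α
  exact SAP.congr (SAP.exists_mem Finset.univ fun a _ => h a) (by simp)

lemma SAP.forall_fin {α : Type*} [Finite α] {p : α → (R : RCF) → (ι → R) → Prop}
    (h : ∀ a, SAP (p a)) : SAP (fun R v => ∀ a, p a R v) := by
  classical
  have := Fintype.ofFinite α
  exact SAP.congr (SAP.forall_mem Finset.univ fun a _ => h a) (by simp)

lemma SAP.sign_eq {f : (R : RCF) → (ι → R) → R} (hf : PF f) (s : SignType) :
    SAP (fun R v => SignType.sign (f R v) = s) := by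
  obtain ⟨q, hq⟩ := hf
  refine ⟨{q}, fun R R' v w h hv => ?_⟩
  have := h q (by simp)
  simp only [hq] at hv ⊢
  rw [← this, hv]

lemma SAP.pos {f : (R : RCF) → (ι → R) → R} (hf : PF f) : SAP (fun R v => 0 < f R v) :=
  (SAP.sign_eq hf 1).congr fun R v => by rw [sign_eq_one_iff]

lemma SAP.eq_zero {f : (R : RCF) → (ι → R) → R} (hf : PF f) : SAP (fun R v => f R v = 0) :=
  (SAP.sign_eq hf 0).congr fun R v => by rw [sign_eq_zero_iff]

lemma SAP.lt {f g : (R : RCF) → (ι → R) → R} (hf : PF f) (hg : PF g) :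
    SAP (fun R v => f R v < g R v) :=
  (SAP.pos (hg.sub hf)).congr fun R v => by rw [sub_pos]

lemma SAP.le {f g : (R : RCF) → (ι → R) → R} (hf : PF f) (hg : PF g) :
    SAP (fun R v => f R v ≤ g R v) :=
  (SAP.lt hg hf).not.congr fun R v => by rw [not_lt]

lemma SAP.eq {f g : (R : RCF) → (ι → R) → R} (hf : PF f) (hg : PF g) :
    SAP (fun R v => f R v = g R v) :=
  (SAP.eq_zero (hf.sub hg)).congr fun R v => by rw [sub_eq_zero]

/-- preimages under polynomial maps -/
lemma SAP.preimage {p : (R : RCF) → (κ → R) → Prop} (hp : SAP p)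
    {φ : (R : RCF) → (ι → R) → κ → R}
    (hφ : ∀ k, PF (fun R v => φ R v k)) : SAP (fun R v => p R (φ R v)) := by
  classical
  obtain ⟨Q, hQ⟩ := hp
  choose r hr using hφ
  have key : ∀ (R : RCF) (v : ι → R) (q : MvPolynomial κ ℚ),
      MvPolynomial.aeval (φ R v) q = MvPolynomial.aeval v (bind₁ r q) := by
    intro R v q
    rw [aeval_bind₁]
    congr 2
    funext k
    exact hr k R v
  refine ⟨Q.image (bind₁ r), fun R R' v w h hv => ?_⟩
  refine hQ R R' (φ R v) (φ R' w) (fun q hq => ?_) hv
  rw [key, key]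
  exact h _ (Finset.mem_image_of_mem _ hq)

/-- add a coordinate -/
def ext {R : RCF} (t : R) (v : ι → R) : Option ι → R := fun o => o.elim t v

@[simp] lemma ext_none {R : RCF} (t : R) (v : ι → R) : ext t v none = t := rfl
@[simp] lemma ext_some {R : RCF} (t : R) (v : ι → R) (i : ι) : ext t v (some i) = v i := rfl

end Pool.Agent.H104_RCF
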