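import Pool.Agent.H104_RCF.SA

/-!
# Univariate polynomials with polynomial coefficients, and their specialisations
(uniform version of `Pool.Agent.H581R2.Spec`)
-/

namespace Pool.Agent.H104_RCF

open Polynomial

variable {ι κ : Type}

/-- polynomials in one variable whose coefficients are polynomials in the parameters -/
abbrev UP (ι : Type) : Type := Polynomial (MvPolynomial ι ℚ)

/-- specialisation of the parameters -/
noncomputable def spec {R : RCF} (v : ι → R) (F : UP ι) : (R : Type)[X] :=
  F.map ((MvPolynomial.aeval v : MvPolynomial ι ℚ →ₐ[ℚ] R) : MvPolynomial ι ℚ →+* R)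

@[simp] lemma spec_coeff {R : RCF} (v : ι → R) (F : UP ι) (i : ℕ) :
    (spec v F).coeff i = MvPolynomial.aeval v (F.coeff i) := by
  simp [spec, Polynomial.coeff_map]

lemma spec_derivative {R : RCF} (v : ι → R) (F : UP ι) :
    spec v (derivative F) = derivative (spec v F) := by
  simp [spec, Polynomial.derivative_map]

lemma spec_eval {R : RCF} (v : ι → R) (F : UP ι) (t : R) :
    (spec v F).eval t =
      ∑ i ∈ Finset.range (F.natDegree + 1), MvPolynomial.aeval v (F.coeff i) * t ^ i := by
  rw [spec, Polynomial.eval_map, Polynomial.eval₂_eq_sum_range]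
  rfl

lemma spec_eq_zero_iff {R : RCF} (v : ι → R) (F : UP ι) :
    spec v F = 0 ↔ ∀ i ∈ Finset.range (F.natDegree + 1), MvPolynomial.aeval v (F.coeff i) = 0 := by
  constructor
  · intro h i _
    have := congrArg (fun p => p.coeff i) h
    simpa using this
  · intro h
    ext i
    by_cases hi : i < F.natDegree + 1
    · simpa using h i (Finset.mem_range.2 hi)
    · simp [Polynomial.coeff_eq_zero_of_natDegree_lt (show F.natDegree < i by omega)]

/-- the value of a specialised polynomial is a polynomial function -/
lemma PF.spec_eval {φ : (R : RCF) → (κ → R) → ι → R} (hφ : ∀ i, PF (fun R w => φ R w i))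
    (F : UP ι) {f : (R : RCF) → (κ → R) → R} (hf : PF f) :
    PF (fun R w => (spec (φ R w) F).eval (f R w)) := by
  have : (fun (R : RCF) (w : κ → R) => (spec (φ R w) F).eval (f R w)) = fun R w =>
      ∑ i ∈ Finset.range (F.natDegree + 1),
        MvPolynomial.aeval (φ R w) (F.coeff i) * (f R w) ^ i := by
    funext R w
    rw [Pool.Agent.H104_RCF.spec_eval]
  rw [this]
  exact PF.sum _ fun i _ => ((PF.aeval (F.coeff i)).comp hφ).mul (hf.pow i)

lemma PF.spec_coeff {φ : (R : RCF) → (κ → R) → ι → R} (hφ : ∀ i, PF (fun R w => φ R w i))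
    (F : UP ι) (i : ℕ) : PF (fun R w => (spec (φ R w) F).coeff i) := by
  have : (fun (R : RCF) (w : κ → R) => (spec (φ R w) F).coeff i) =
      fun R w => MvPolynomial.aeval (φ R w) (F.coeff i) := by
    funext R w
    simp
  rw [this]
  exact (PF.aeval (F.coeff i)).comp hφ

/-- pull back of the parameters along a polynomial map -/
lemma exists_pull {φ : (R : RCF) → (κ → R) → ι → R} (hφ : ∀ i, PF (fun R w => φ R w i))
    (F : UP ι) : ∃ G : UP κ, G.degree ≤ F.degree ∧
      ∀ (R : RCF) (w : κ → R), spec w G = spec (φ R w) F := by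
  choose r hr using hφ
  refine ⟨F.map ((MvPolynomial.bind₁ r : MvPolynomial ι ℚ →ₐ[ℚ] MvPolynomial κ ℚ) :
    MvPolynomial ι ℚ →+* MvPolynomial κ ℚ), Polynomial.degree_map_le, fun R w => ?_⟩
  ext i
  simp only [spec_coeff, Polynomial.coeff_map, RingHom.coe_coe]
  rw [MvPolynomial.aeval_bind₁]
  congr 2
  funext k
  exact (hr k R w).symm

/-- a polynomial in the variables `Option ι` as a univariate polynomial -/
lemma exists_univ (q : MvPolynomial (Option ι) ℚ) :
    ∃ F : UP ι, ∀ (R : RCF) (v : ι → R) (t : R),
      MvPolynomial.aeval (ext t v) q = (spec v F).eval t := by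
  refine ⟨MvPolynomial.optionEquivLeft ℚ ι q, fun R v t => ?_⟩
  induction q using MvPolynomial.induction_on with
  | C a => simp [spec, MvPolynomial.optionEquivLeft_C]
  | add p q hp hq =>
    simp only [map_add, hp, hq, spec, Polynomial.map_add, Polynomial.eval_add]
  | mul_X p i hp =>
    rw [map_mul, hp, map_mul]
    simp only [spec, Polynomial.map_mul, Polynomial.eval_mul]
    congr 1
    cases i with
    | none => simp [MvPolynomial.optionEquivLeft_X_none]
    | some i => simp [MvPolynomial.optionEquivLeft_X_some]

/-- the finite set of all zeros of the nonzero specialisations of a finite family -/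
noncomputable def zset {R : RCF} (G : Finset (UP ι)) (v : ι → R) : Finset R := by
  classical exact G.biUnion fun g => (spec v g).roots.toFinset

lemma mem_zset {R : RCF} (G : Finset (UP ι)) (v : ι → R) (z : R) :
    z ∈ zset G v ↔ ∃ g ∈ G, spec v g ≠ 0 ∧ (spec v g).eval z = 0 := by
  classical
  simp [zset, Polynomial.IsRoot.def]

/-- the intermediate value property -/
lemma ivp (R : RCF) : R316.DS.IVP R := R316.DS.ivp_of_isRealClosed

end Pool.Agent.H104_RCF
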