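import Pool.Agent.H104_RCF.QE

/-!
# Quantification over tuples and the transfer principle for real closed fields
-/

namespace Pool.Agent.H104_RCF

open MvPolynomial

/-- universal quantification over an element -/
theorem SAP.forall_elt {ι : Type} {p : (R : RCF) → (Option ι → R) → Prop} (hp : SAP p) :
    SAP (fun (R : RCF) (v : ι → R) => ∀ t, p R (ext t v)) :=
  (SAP.exists_elt hp.not).not.congr fun R v => by push Not; rfl

/-- existential quantification over a finite tuple -/
theorem SAP.exists_tuple (κ : Type) [Finite κ] : ∀ {ι : Type} {p : (R : RCF) → (ι ⊕ κ → R) → Prop},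
    SAP p → SAP (fun (R : RCF) (v : ι → R) => ∃ w : κ → R, p R (Sum.elim v w)) := by
  refine Finite.induction_empty_option (P := fun κ => ∀ {ι : Type}
    {p : (R : RCF) → (ι ⊕ κ → R) → Prop},
    SAP p → SAP (fun (R : RCF) (v : ι → R) => ∃ w : κ → R, p R (Sum.elim v w))) ?_ ?_ ?_ κ
  · intro α β e ih ι p hp
    have h1 : SAP (fun (R : RCF) (u : ι ⊕ α → R) => p R (fun x => u (Sum.map id e.symm x))) :=
      hp.preimage (φ := fun R u x => u (Sum.map id e.symm x)) fun k => PF.coord _
    refine (ih h1).congr fun R v => ?_
    constructor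
    · rintro ⟨w, hw⟩
      refine ⟨fun a => w (e a), ?_⟩
      convert hw using 1
      funext x
      rcases x with x | x <;> simp
    · rintro ⟨w, hw⟩
      refine ⟨fun b => w (e.symm b), ?_⟩
      convert hw using 1
      funext x
      rcases x with x | x <;> simp
  · intro ι p hp
    have h1 : SAP (fun (R : RCF) (v : ι → R) => p R (Sum.elim v PEmpty.elim)) :=
      hp.preimage (φ := fun R v x => Sum.elim v PEmpty.elim x) fun k => by
        rcases k with k | k
        · exact PF.coord k
        · exact k.elim
    refine h1.congr fun R v => ?_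
    constructor
    · rintro ⟨w, hw⟩
      convert hw using 1
      funext x
      rcases x with x | x
      · rfl
      · exact x.elim
    · intro h
      exact ⟨PEmpty.elim, h⟩
  · intro α _ ih ι p hp
    have h1 : SAP (fun (R : RCF) (u : (Option ι) ⊕ α → R) =>
        p R (Sum.elim (fun i => u (Sum.inl (some i)))
          (fun o => o.elim (u (Sum.inl none)) fun a => u (Sum.inr a)))) :=
      hp.preimage (φ := fun R u => Sum.elim (fun i => u (Sum.inl (some i)))
          (fun o => o.elim (u (Sum.inl none)) fun a => u (Sum.inr a))) fun k => by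
        rcases k with k | k
        · exact PF.coord _
        · cases k with
          | none => exact PF.coord _
          | some a => exact PF.coord _
    refine (SAP.exists_elt (ih h1)).congr fun R v => ?_
    constructor
    · rintro ⟨w, hw⟩
      refine ⟨w none, fun a => w (some a), ?_⟩
      convert hw using 1
      funext x
      rcases x with x | x
      · rfl
      · cases x <;> rfl
    · rintro ⟨t, w, hw⟩
      exact ⟨fun o => o.elim t w, hw⟩

/-- universal quantification over a finite tuple -/
theorem SAP.forall_tuple (κ : Type) [Finite κ] {ι : Type} {p : (R : RCF) → (ι ⊕ κ → R) → Prop}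
    (hp : SAP p) : SAP (fun (R : RCF) (v : ι → R) => ∀ w : κ → R, p R (Sum.elim v w)) :=
  (SAP.exists_tuple κ hp.not).not.congr fun R v => by push Not; rfl

/-- **Transfer principle**: a semialgebraic family without parameters is true in one real closed
field if and only if it is true in every other one. -/
theorem transfer {ι : Type} [IsEmpty ι] {p : (R : RCF) → (ι → R) → Prop} (hp : SAP p)
    (R R' : RCF) (v : ι → R) (w : ι → R') : p R v ↔ p R' w := by
  obtain ⟨Q, hQ⟩ := hp.iff'
  refine hQ R R' v w fun q _ => ?_
  have hq : q = C (coeff 0 q) := by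
    ext m
    have : m = 0 := Subsingleton.elim _ _
    subst this
    simp
  rw [hq, aeval_C, aeval_C, eq_ratCast, eq_ratCast]
  rcases lt_trichotomy (coeff 0 q) 0 with h | h | h
  · rw [sign_neg (by exact_mod_cast h), sign_neg (by exact_mod_cast h)]
  · rw [h]; simp
  · rw [sign_pos (by exact_mod_cast h), sign_pos (by exact_mod_cast h)]

/-- an ordered field with the intermediate value property for polynomials is real closed -/
theorem isRealClosed_of_ivp {K : Type*} [Field K] [LinearOrder K] [IsStrictOrderedRing K]
    (hK : R316.DS.IVP K) : IsRealClosed K := by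
  refine IsRealClosed.of_linearOrderedField ?_ ?_
  · intro x hx
    rcases eq_or_lt_of_le hx with h | h
    · exact ⟨0, by rw [← h, mul_zero]⟩
    · obtain ⟨c, _, _, hc⟩ := hK (Polynomial.X ^ 2 - Polynomial.C x) 0 (x + 1) (by linarith) (by
        simp only [Polynomial.eval_sub, Polynomial.eval_pow, Polynomial.eval_X,
          Polynomial.eval_C]
        have h1 : (0 : K) ^ 2 - x < 0 := by rw [zero_pow two_ne_zero]; linarith
        have h2 : 0 < (x + 1) ^ 2 - x := by nlinarith
        exact mul_neg_of_neg_of_pos h1 h2)
      refine ⟨c, ?_⟩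
      simp only [Polynomial.eval_sub, Polynomial.eval_pow, Polynomial.eval_X,
          Polynomial.eval_C] at hc
      linear_combination -hc
  · intro f hf
    have hf0 : f ≠ 0 := by
      rintro rfl
      simp at hf
    have hl : f.leadingCoeff ≠ 0 := by simpa using hf0
    obtain ⟨t, ht⟩ := root_all hK f hf0 (by
      rw [hf.neg_one_pow]
      have : 0 < f.leadingCoeff * f.leadingCoeff := mul_self_pos.2 hl
      linarith)
    exact ⟨t, ht⟩

instance isRealClosedReal : IsRealClosed ℝ := by
  refine isRealClosed_of_ivp fun P a b hab h => ?_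
  have hc : ContinuousOn (fun x => P.eval x) (Set.Icc a b) := P.continuous.continuousOn
  rcases mul_neg_iff.1 h with ⟨h1, h2⟩ | ⟨h1, h2⟩
  · obtain ⟨t, ht, h0⟩ := intermediate_value_Ioo' hab.le hc ⟨h2, h1⟩
    exact ⟨t, ht.1, ht.2, h0⟩
  · obtain ⟨t, ht, h0⟩ := intermediate_value_Ioo hab.le hc ⟨h1, h2⟩
    exact ⟨t, ht.1, ht.2, h0⟩

/-- the real numbers -/
noncomputable def realField : RCF := ⟨ℝ⟩

/-- a parameter free semialgebraic statement true over `ℝ` is true over all real closed fields -/
theorem transfer_real {p : RCF → Prop} (hp : SAP (fun (R : RCF) (_ : Empty → R) => p R))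
    (h : p realField) (R : RCF) : p R :=
  (transfer hp realField R Empty.elim Empty.elim).1 h

/-- In a real closed field the squares are the nonnegative elements of a field order. -/
theorem exists_order (R : Type*) [Field R] [IsRealClosed R] :
    ∃ _ : LinearOrder R, IsStrictOrderedRing R := by
  classical
  have hadd : ∀ a b : R, IsSquare a → IsSquare b → IsSquare (a + b) := by
    rintro _ _ ⟨a, rfl⟩ ⟨b, rfl⟩
    rcases IsRealClosed.isSquare_or_isSquare_neg (a * a + b * b) with h | ⟨c, hc⟩
    · exact h
    · by_cases h0 : c = 0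
      · rw [h0] at hc
        exact ⟨0, by linear_combination -hc⟩
      · exfalso
        refine IsSemireal.not_isSumSq_neg_one R ?_
        have e : (-1 : R) = (a / c) * (a / c) + (b / c) * (b / c) := by
          field_simp
          linear_combination hc
        rw [e]
        exact (IsSumSq.mul_self _).add (IsSumSq.mul_self _)
  let C : RingCone R :=
    { carrier := {x | IsSquare x}
      mul_mem' := fun ha hb => IsSquare.mul ha hb
      one_mem' := ⟨1, by simp⟩
      add_mem' := fun {a b} ha hb => hadd a b ha hb
      zero_mem' := ⟨0, by simp⟩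
      eq_zero_of_mem_of_neg_mem' := by
        rintro x ⟨a, ha⟩ ⟨b, hb⟩
        by_contra h0
        have hb0 : b ≠ 0 := by
          rintro rfl
          exact h0 (by linear_combination -hb)
        refine IsSemireal.not_isSumSq_neg_one R ?_
        have e : (-1 : R) = (a / b) * (a / b) := by
          field_simp
          linear_combination ha + hb
        rw [e]
        exact IsSumSq.mul_self _ }
  have hmem : ∀ a, a ∈ C ↔ IsSquare a := fun a => Iff.rfl
  have : HasMemOrNegMem C := ⟨fun a => IsRealClosed.isSquare_or_isSquare_neg a⟩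
  let _ : LinearOrder R := LinearOrder.mkOfAddGroupCone C
  have : IsOrderedRing R := IsOrderedRing.mkOfCone C
  exact ⟨inferInstance, IsOrderedRing.toIsStrictOrderedRing R⟩

/-- the hypotheses used in the frozen statements -/
theorem isRealClosed_of (R : Type*) [Field R]
    (h1 : ¬ ∃ (m : ℕ) (f : Fin m → R), ∑ i, f i ^ 2 = -1)
    (h2 : ∀ x : R, IsSquare x ∨ IsSquare (-x))
    (h3 : ∀ p : Polynomial R, Odd p.natDegree → ∃ x : R, p.IsRoot x) : IsRealClosed R := by
  have key : ∀ a : R, IsSumSq a → ∃ (m : ℕ) (f : Fin m → R), ∑ i, f i ^ 2 = a := by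
    intro a ha
    induction ha with
    | zero => exact ⟨0, Fin.elim0, by simp⟩
    | sq_add a hs ih =>
      obtain ⟨m, f, hf⟩ := ih
      refine ⟨m + 1, Fin.cons a f, ?_⟩
      rw [Fin.sum_univ_succ]
      simp only [Fin.cons_zero, Fin.cons_succ]
      rw [hf, sq]
  have : IsSemireal R := IsSemireal.of_not_isSumSq_neg_one fun h => h1 (key _ h)
  exact { isSquare_or_isSquare_neg := h2, exists_isRoot_of_odd_natDegree := fun hf => h3 _ hf }

end Pool.Agent.H104_RCF
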